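import Mathlib

set_option autoImplicit false

open scoped commutatorElement

namespace Pool.Agent.Helper705.Hopf

section words

variable {G : Type} [Group G]

/-- the defect -/
def mF (b x z : G) : G := ⁅⁅z, x⁆, b⁆

/-- the substitution -/
def wF (b x z : G) : G := mF b x z * z

/-- the correction -/
def nuF (b x z : G) : G :=
  mF b x z * (⁅b, mF b x z⁆)⁻¹ * ⁅b, (z * x * z⁻¹)⁻¹ * ⁅b, mF b x z⁆ * (z * x * z⁻¹)⁆

/-- the inverse substitution -/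
def vF (b x z : G) : G := (nuF b x z)⁻¹ * z

lemma map_mF {G' : Type} [Group G'] (φ : G →* G') (b x z : G) :
    φ (mF b x z) = mF (φ b) (φ x) (φ z) := by simp [mF, map_commutatorElement]

lemma map_wF {G' : Type} [Group G'] (φ : G →* G') (b x z : G) :
    φ (wF b x z) = wF (φ b) (φ x) (φ z) := by simp [wF, map_mF]

lemma map_nuF {G' : Type} [Group G'] (φ : G →* G') (b x z : G) :
    φ (nuF b x z) = nuF (φ b) (φ x) (φ z) := by simp [nuF, map_mF, map_commutatorElement]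

lemma map_vF {G' : Type} [Group G'] (φ : G →* G') (b x z : G) :
    φ (vF b x z) = vF (φ b) (φ x) (φ z) := by simp [vF, map_nuF]

lemma ident1 (l z x : G) :
    ⁅l * z, x⁆ = (l * ((z * x * z⁻¹) * l⁻¹ * (z * x * z⁻¹)⁻¹)) * ⁅z, x⁆ := by
  simp only [commutatorElement_def]; group

lemma ident2 (l h b : G) : ⁅l * h, b⁆ = l * ⁅h, b⁆ * (b * l⁻¹ * b⁻¹) := by
  simp only [commutatorElement_def]; group

end words

section abs

variable {A G : Type} [CommGroup A] [Group G] (ι : A →* G) (κ : G →* MulAut A)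
  (hκ : ∀ g a, g * ι a * g⁻¹ = ι (κ g a)) (hι : ∀ a, κ (ι a) = 1)

/-- the operator -/
def EE (κ : G →* MulAut A) (b : G) : A →* A := (κ b).toMonoidHom / MonoidHom.id A

omit [Group G] in
lemma EE_val {G : Type} [Group G] (κ : G →* MulAut A) (b : G) (a : A) :
    EE κ b a = κ b a * a⁻¹ := by
  rw [EE, MonoidHom.div_apply, div_eq_mul_inv]; rfl

include hκ in
lemma EE_apply (b : G) (a : A) : ⁅b, ι a⁆ = ι (EE κ b a) := by
  rw [commutatorElement_def, hκ, EE]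
  simp [div_eq_mul_inv]

include hκ hι in
lemma mF_shift (b x z : G) (m l : A) (hm : mF b x z = ι m) :
    mF b x (ι l * z) = ι (m * (EE κ b (l * (κ (z * x * z⁻¹) l)⁻¹))⁻¹) := by
  set t := z * x * z⁻¹ with ht
  have h1 : ⁅ι l * z, x⁆ = ι (l * (κ t l)⁻¹) * ⁅z, x⁆ := by
    rw [ident1, ← ht]
    have : t * (ι l)⁻¹ * t⁻¹ = ι ((κ t l)⁻¹) := by
      rw [← map_inv, hκ, map_inv]
    rw [this, ι.map_mul]
  unfold mF at hm ⊢
  rw [h1, ident2, hm, ← ι.map_inv, hκ, ← ι.map_mul, ← ι.map_mul]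
  congr 1
  generalize l * (κ t l)⁻¹ = lam
  rw [EE_val, mul_inv_rev, inv_inv, map_inv, mul_comm lam m, mul_assoc]

include hκ hι in
/-- composition in general -/
lemma vw_id (b x z : G) (m : A) (hm : mF b x z = ι m)
    (h1 : ∀ a, EE κ b (EE κ b a) = EE κ b a)
    (h3 : ∀ a, EE κ b (κ (z * x * z⁻¹)⁻¹ (EE κ b (κ (z * x * z⁻¹) a))) = EE κ b a) :
    vF b x (wF b x z) = z := by
  set t := z * x * z⁻¹ with ht
  have hw : wF b x z = ι m * z := by rw [wF, hm]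
  have hm' := mF_shift ι κ hκ hι b x z m m hm
  rw [← ht] at hm'
  have ht' : κ (ι m * z * x * (ι m * z)⁻¹) = κ t := by
    have : ι m * z * x * (ι m * z)⁻¹ = ι m * t * (ι m)⁻¹ := by rw [ht]; group
    rw [this, map_mul, map_mul, hι, map_inv, hι]; simp
  have hm'' : m * (EE κ b (m * (κ t m)⁻¹))⁻¹ = m * (EE κ b m)⁻¹ * EE κ b (κ t m) := by
    rw [map_mul, map_inv, mul_inv, inv_inv, mul_assoc]
  rw [hm''] at hm'
  have hE : EE κ b (m * (EE κ b m)⁻¹ * EE κ b (κ t m)) = EE κ b (κ t m) := by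
    rw [map_mul, map_mul, map_inv, h1, h1]; simp
  have hnu : nuF b x (ι m * z) = ι m := by
    unfold nuF
    rw [hm', EE_apply ι κ hκ, hE]
    have e1 : (ι m * z * x * (ι m * z)⁻¹)⁻¹ * ι (EE κ b (κ t m)) * (ι m * z * x * (ι m * z)⁻¹) =
        ι (κ t⁻¹ (EE κ b (κ t m))) := by
      have := hκ (ι m * z * x * (ι m * z)⁻¹)⁻¹ (EE κ b (κ t m))
      rw [inv_inv] at this
      rw [this, map_inv, ht', ← map_inv]
    rw [e1, EE_apply ι κ hκ, h3, ← ι.map_inv, ← ι.map_mul, ← ι.map_mul]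
    congr 1
    simp
  rw [hw, vF, hnu]; simp

include hκ hι in
lemma wv_ne (b x z : G) (m : A) (hm : mF b x z = ι m)
    (hne : EE κ b (m * (EE κ b m)⁻¹ * EE κ b (κ (z * x * z⁻¹)⁻¹ (EE κ b m))) ≠
      EE κ b (κ (z * x * z⁻¹) (m * (EE κ b m)⁻¹ * EE κ b (κ (z * x * z⁻¹)⁻¹ (EE κ b m)))) *
        ((EE κ b m)⁻¹ * EE κ b (κ (z * x * z⁻¹)⁻¹ (EE κ b m)))) (hinj : Function.Injective ι) :
    wF b x (vF b x z) ≠ z := by
  set t := z * x * z⁻¹ with ht
  set p := m * (EE κ b m)⁻¹ * EE κ b (κ t⁻¹ (EE κ b m)) with hp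
  have hnu : nuF b x z = ι p := by
    unfold nuF
    rw [hm, EE_apply ι κ hκ, ← ht]
    have e1 := hκ t⁻¹ (EE κ b m)
    rw [inv_inv] at e1
    rw [e1, EE_apply ι κ hκ, ← ι.map_inv, ← ι.map_mul, ← ι.map_mul]
  have hv : vF b x z = ι p⁻¹ * z := by rw [vF, hnu, map_inv]
  have hm' := mF_shift ι κ hκ hι b x z m p⁻¹ hm
  rw [hv, wF, hm', ← ht]
  intro h
  have h' : ι (m * (EE κ b (p⁻¹ * (κ t p⁻¹)⁻¹))⁻¹ * p⁻¹) = 1 := by
    have : ι (m * (EE κ b (p⁻¹ * (κ t p⁻¹)⁻¹))⁻¹ * p⁻¹) * z = z := by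
      rw [ι.map_mul, mul_assoc]; exact h
    simpa using this
  rw [← map_one ι] at h'
  have h'' := hinj h'
  apply hne
  have h3 : m * (EE κ b (p⁻¹ * (κ t p⁻¹)⁻¹))⁻¹ = p := by
    rwa [mul_inv_eq_one] at h''
  rw [map_inv, inv_inv, map_mul, map_inv, mul_inv, inv_inv] at h3
  have h4 : EE κ b p * (EE κ b (κ t p))⁻¹ = m⁻¹ * p := by
    rw [eq_inv_mul_iff_mul_eq]; exact h3
  have h5 : m⁻¹ * p = (EE κ b m)⁻¹ * EE κ b (κ t⁻¹ (EE κ b m)) := by
    rw [hp]; simp [mul_assoc]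
  rw [h5, mul_inv_eq_iff_eq_mul] at h4
  rw [h4, mul_comm]

end abs

end Pool.Agent.Helper705.Hopf
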