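import Mathlib

set_option autoImplicit false

open scoped commutatorElement

namespace Pool.Agent.Helper705.Hopf

lemma exists_finset_closure {X : Type} (u : FreeGroup X) :
    ∃ T : Finset X, u ∈ Subgroup.closure (FreeGroup.of '' (T : Set X)) := by
  classical
  induction u using FreeGroup.induction_on with
  | C1 => exact ⟨∅, one_mem _⟩
  | of x => exact ⟨{x}, Subgroup.subset_closure ⟨x, by simp, rfl⟩⟩
  | inv_of x ih =>
    obtain ⟨T, hT⟩ := ih
    exact ⟨T, inv_mem hT⟩
  | mul x y hx hy =>
    obtain ⟨T, hT⟩ := hx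
    obtain ⟨T', hT'⟩ := hy
    refine ⟨T ∪ T', mul_mem ?_ ?_⟩
    · exact Subgroup.closure_mono (Set.image_mono (by simp)) hT
    · exact Subgroup.closure_mono (Set.image_mono (by simp)) hT'

/-- if all homomorphisms from the free group of countable rank kill the derived subgroup,
the derived series vanishes -/
lemma derived_of_laws {G : Type} [Group G] (d : ℕ)
    (h : ∀ w ∈ derivedSeries (FreeGroup ℕ) d, ∀ φ : FreeGroup ℕ →* G, φ w = 1) :
    derivedSeries G d = ⊥ := by
  classical
  let ev : FreeGroup G →* G := FreeGroup.lift id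
  have hev : Function.Surjective ev := fun g => ⟨FreeGroup.of g, by simp [ev]⟩
  rw [← map_derivedSeries_eq hev d, Subgroup.map_eq_bot_iff]
  intro u hu
  obtain ⟨T, hT⟩ := exists_finset_closure u
  -- encode the finite set of letters
  let e : T ≃ Fin T.card := T.equivFin
  let p : FreeGroup G →* FreeGroup ℕ := FreeGroup.lift
    (fun g => if hg : g ∈ T then FreeGroup.of ((e ⟨g, hg⟩ : Fin T.card) : ℕ) else 1)
  let q : FreeGroup ℕ →* FreeGroup G := FreeGroup.lift
    (fun n => if hn : n < T.card then FreeGroup.of ((e.symm ⟨n, hn⟩ : T) : G) else 1)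
  have hqp : ∀ v ∈ Subgroup.closure (FreeGroup.of '' (T : Set G)), q (p v) = v := by
    intro v hv
    have : Set.EqOn (q.comp p) (MonoidHom.id _) (Subgroup.closure (FreeGroup.of '' (T : Set G))) := by
      apply MonoidHom.eqOn_closure
      rintro _ ⟨g, hg, rfl⟩
      have hg' : g ∈ T := hg
      simp [p, q, hg']
    exact this hv
  have h1 := h (p u) (map_derivedSeries_le_derivedSeries p d ⟨u, hu, rfl⟩) (ev.comp q)
  rw [MonoidHom.comp_apply, hqp u hT] at h1
  exact h1

lemma eq_of_map_mul_inv {G H : Type} [Group G] [Group H] (φ : G →* H) (a b : G)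
    (h : φ (a * b⁻¹) = 1) : φ a = φ b := by
  rwa [map_mul, map_inv, mul_inv_eq_one] at h

lemma mul_inv_one_of_eq {G : Type} [Group G] (a b : G) (h : a = b) : a * b⁻¹ = 1 := by
  rw [h, mul_inv_cancel]

end Pool.Agent.Helper705.Hopf
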