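import Mathlib
import Pool.Agent.Helper705.SRF.Form
import Pool.Agent.Helper705.SRF.Aff

set_option autoImplicit false

namespace Pool.Agent.Helper705.Hopf

open Pool.Agent.Helper705.SRF

section gen

variable {Ω C : Type} [AddCommGroup C] [Module (ZMod 2) C]

/-- bilinear map with kernel `K` on finitely supported functions -/
noncomputable def BC (K : Ω → Ω → C) :
    (Ω →₀ ZMod 2) →ₗ[ZMod 2] (Ω →₀ ZMod 2) →ₗ[ZMod 2] C :=
  Finsupp.linearCombination (ZMod 2) (fun ω => Finsupp.linearCombination (ZMod 2) (K ω))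

@[simp] lemma BC_single (K : Ω → Ω → C) (ω ω' : Ω) (a b : ZMod 2) :
    BC K (Finsupp.single ω a) (Finsupp.single ω' b) = (a * b) • K ω ω' := by
  simp [BC, mul_smul]

lemma BC_ext {K : Ω → Ω → C} {f : (Ω →₀ ZMod 2) → (Ω →₀ ZMod 2) → C}
    (h1 : ∀ a b c, f (a + b) c = f a c + f b c) (h2 : ∀ a b c, f a (b + c) = f a b + f a c)
    (h3 : ∀ ω ω' a b, f (Finsupp.single ω a) (Finsupp.single ω' b) = (a * b) • K ω ω')
    (m m' : Ω →₀ ZMod 2) : f m m' = BC K m m' := by
  have h0l : ∀ c, f 0 c = 0 := fun c => by simpa using h1 0 0 c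
  have h0r : ∀ c, f c 0 = 0 := fun c => by simpa using h2 c 0 0
  induction m using Finsupp.induction_linear with
  | zero => simp [h0l]
  | add p q hp hq => rw [h1, hp, hq]; simp
  | single ω a =>
    induction m' using Finsupp.induction_linear with
    | zero => simp [h0r]
    | add p q hp hq => rw [h2, hp, hq]; simp
    | single ω' b => simp [h3]

/-- additive-hom version of `BC` -/
noncomputable def BCAdd (K : Ω → Ω → C) : (Ω →₀ ZMod 2) →+ (Ω →₀ ZMod 2) →+ C :=
  AddMonoidHom.mk' (fun m => (BC K m).toAddMonoidHom) (by intro a b; ext; simp)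

@[simp] lemma BCAdd_apply (K : Ω → Ω → C) (m m' : Ω →₀ ZMod 2) :
    BCAdd K m m' = BC K m m' := rfl

lemma quad_ext' (h g : (Ω →₀ ZMod 2) → C)
    (h0 : h 0 = 0) (hadd : ∀ a b, h (a + b) = h a + h b)
    (g0 : g 0 = 0) (gadd : ∀ a b, g (a + b) = g a + g b)
    (hs : ∀ ω a, h (Finsupp.single ω a) = g (Finsupp.single ω a)) (m : Ω →₀ ZMod 2) :
    h m = g m := by
  induction m using Finsupp.induction_linear with
  | zero => rw [h0, g0]
  | add p q hp hq => rw [hadd, gadd, hp, hq]
  | single ω a => exact hs ω a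

end gen

section labels

variable {S : Type} [CommRing S]

/-- label space -/
abbrev Lab (S : Type) := S →₀ ZMod 2

lemma two_cancel (c : Lab S) : c + c = 0 := by
  ext z; exact zmod2_add_self _

lemma lab_neg (c : Lab S) : -c = c := by
  ext z; simp

open Classical in
/-- the kernel of the label form -/
noncomputable def kB (ω ω' : S) : Lab S := if ω = ω' then 0 else Finsupp.single (ω' - ω) 1

/-- a triangular kernel -/
noncomputable def kL [LinearOrder S] (ω ω' : S) : Lab S :=
  if ω < ω' then Finsupp.single (ω' - ω) 1 else 0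

lemma sub_comm2 (h2 : (2 : S) = 0) (a b : S) : a - b = b - a := by
  linear_combination (a - b) * h2

lemma kL_sub [LinearOrder S] (h2 : (2 : S) = 0) (ω ω' : S) : kL ω ω' - kL ω' ω = kB ω ω' := by
  unfold kL kB
  rcases lt_trichotomy ω ω' with h | h | h
  · simp [h, h.ne, h.not_gt]
  · subst h; simp
  · simp only [h.not_gt, h, h.ne', if_true, if_false, zero_sub, lab_neg]
    rw [sub_comm2 h2]

lemma kB_symm (h2 : (2 : S) = 0) (ω ω' : S) : kB ω ω' = kB ω' ω := by
  by_cases h : ω = ω'
  · subst h; rfl
  · simp [kB, h, Ne.symm h, sub_comm2 h2 ω ω']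

/-- scaling of labels by a unit -/
noncomputable def scal (u : Sˣ) : Lab S →+ Lab S := Finsupp.mapDomain.addMonoidHom (fun x => (u : S) * x)

@[simp] lemma scal_single (u : Sˣ) (x : S) (a : ZMod 2) :
    scal u (Finsupp.single x a) = Finsupp.single ((u : S) * x) a := by
  simp [scal]

lemma scal_mul (u v : Sˣ) (c : Lab S) : scal (u * v) c = scal u (scal v c) := by
  induction c using Finsupp.induction_linear with
  | zero => simp
  | add p q hp hq => simp [hp, hq]
  | single x a => simp [mul_assoc]

lemma scal_one (c : Lab S) : scal (1 : Sˣ) c = c := by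
  induction c using Finsupp.induction_linear with
  | zero => simp
  | add p q hp hq => simp [hp, hq]
  | single x a => simp

variable {s : Sˣ}

lemma kB_perm (x : Aff S s) (ω ω' : S) :
    kB (Aff.toPerm x ω) (Aff.toPerm x ω') = scal (s ^ x.n) (kB ω ω') := by
  by_cases h : ω = ω'
  · subst h; simp [kB]
  · have h' : Aff.toPerm x ω ≠ Aff.toPerm x ω' := fun e => h ((Aff.toPerm x).injective e)
    unfold kB
    rw [if_neg h, if_neg h', scal_single]
    congr 1
    simp only [Aff.toPerm_apply]; ring

/-- the label form -/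
noncomputable def bet : (S →₀ ZMod 2) →ₗ[ZMod 2] (S →₀ ZMod 2) →ₗ[ZMod 2] Lab S := BC kB

lemma bet_sub_swap [LinearOrder S] (h2 : (2 : S) = 0) (m m' : S →₀ ZMod 2) :
    BC kL m m' - BC kL m' m = bet m m' := by
  refine BC_ext (K := kB) (f := fun m m' => BC kL m m' - BC kL m' m) ?_ ?_ ?_ m m'
  · intro a b c; simp; abel
  · intro a b c; simp; abel
  · intro ω ω' a b
    simp only [BC_single]
    rw [← kL_sub h2, smul_sub, mul_comm b a]

lemma bet_symm (h2 : (2 : S) = 0) (m m' : S →₀ ZMod 2) : bet m' m = bet m m' := by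
  refine BC_ext (K := kB) (f := fun m m' => bet m' m) ?_ ?_ ?_ m m'
  · intro a b c; simp
  · intro a b c; simp
  · intro ω ω' a b
    simp only [bet, BC_single]
    rw [kB_symm h2, mul_comm]

lemma scal_smul (u : Sˣ) (a : ZMod 2) (c : Lab S) : scal u (a • c) = a • scal u c := by
  induction c using Finsupp.induction_linear with
  | zero => simp
  | add p q hp hq => simp [hp, hq]
  | single x b =>
    rw [Finsupp.smul_single, scal_single, scal_single, Finsupp.smul_single]

lemma bet_perm (x : Aff S s) (m m' : S →₀ ZMod 2) :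
    bet (Finsupp.mapDomain (Aff.toPerm x) m) (Finsupp.mapDomain (Aff.toPerm x) m') =
      scal (s ^ x.n) (bet m m') := by
  have e1 := BC_ext (K := fun ω ω' => scal (s ^ x.n) (kB ω ω'))
    (f := fun m m' : S →₀ ZMod 2 => bet (Finsupp.mapDomain (Aff.toPerm x) m)
      (Finsupp.mapDomain (Aff.toPerm x) m')) ?_ ?_ ?_ m m'
  have e2 := BC_ext (K := fun ω ω' => scal (s ^ x.n) (kB ω ω'))
    (f := fun m m' : S →₀ ZMod 2 => scal (s ^ x.n) (bet m m')) ?_ ?_ ?_ m m'
  · exact e1.trans e2.symm
  · intro a b c; simp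
  · intro a b c; simp
  · intro ω ω' a b
    simp only [bet, BC_single]
    rw [scal_smul]
  · intro a b c; simp [Finsupp.mapDomain_add]
  · intro a b c; simp [Finsupp.mapDomain_add]
  · intro ω ω' a b
    simp only [Finsupp.mapDomain_single, bet, BC_single]
    rw [kB_perm]

lemma bet_self (h2 : (2 : S) = 0) (m : S →₀ ZMod 2) : bet m m = 0 := by
  refine quad_ext' (fun m => bet m m) (fun _ => 0) (by simp) ?_ rfl (by simp) ?_ m
  · intro a b
    simp only [map_add, LinearMap.add_apply]
    rw [bet_symm h2 a b]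
    have := two_cancel (bet a b)
    calc bet a a + bet a b + (bet a b + bet b b) = bet a a + (bet a b + bet a b) + bet b b := by abel
      _ = _ := by rw [this, add_zero]
  · intro ω a
    simp [bet, kB]

lemma bet_transl (h2 : (2 : S) = 0) (v : S) (hv : v ≠ 0) (m : S →₀ ZMod 2) :
    bet m (Finsupp.mapDomain (Aff.toPerm (⟨0, v⟩ : Aff S s)) m) = Finsupp.single v (aug m) := by
  set σ := Aff.toPerm (⟨0, v⟩ : Aff S s) with hσ
  have hinv : ∀ ω, σ (σ ω) = ω := by
    intro ω
    simp only [hσ, Aff.toPerm_apply, zpow_zero, Units.val_one, one_mul]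
    linear_combination v * h2
  have hperm : ∀ a b, bet (Finsupp.mapDomain σ a) (Finsupp.mapDomain σ b) = bet a b := by
    intro a b
    rw [hσ, bet_perm]
    simp [scal_one]
  refine quad_ext' (fun m => bet m (Finsupp.mapDomain σ m)) (fun m => Finsupp.single v (aug m))
    (by simp) ?_ (by simp) (by intro a b; simp) ?_ m
  · intro a b
    have hcomp : Finsupp.mapDomain σ (Finsupp.mapDomain σ b) = b := by
      rw [← Finsupp.mapDomain_comp]
      have : (σ ∘ σ : S → S) = id := by funext ω; exact hinv ω
      rw [this, Finsupp.mapDomain_id]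
    have e1 : bet b (Finsupp.mapDomain σ a) = bet a (Finsupp.mapDomain σ b) := by
      rw [bet_symm h2]
      have := hperm a (Finsupp.mapDomain σ b)
      rw [hcomp] at this
      exact this
    simp only [Finsupp.mapDomain_add, map_add, LinearMap.add_apply]
    rw [e1]
    have := two_cancel (bet a (Finsupp.mapDomain σ b))
    calc bet a (Finsupp.mapDomain σ a) + bet a (Finsupp.mapDomain σ b) +
        (bet a (Finsupp.mapDomain σ b) + bet b (Finsupp.mapDomain σ b))
        = bet a (Finsupp.mapDomain σ a) + (bet a (Finsupp.mapDomain σ b) +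
        bet a (Finsupp.mapDomain σ b)) + bet b (Finsupp.mapDomain σ b) := by abel
      _ = _ := by rw [this, add_zero]
  · intro ω a
    have hne : ω ≠ σ ω := by
      intro e
      simp only [hσ, Aff.toPerm_apply, zpow_zero, Units.val_one, one_mul] at e
      exact hv (by linear_combination -e)
    have hk : kB ω (σ ω) = Finsupp.single v 1 := by
      unfold kB
      rw [if_neg hne]
      congr 1
      simp only [hσ, Aff.toPerm_apply, zpow_zero, Units.val_one, one_mul]; ring
    simp [bet, hk, zmod2_sq]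

end labels

end Pool.Agent.Helper705.Hopf
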