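import Mathlib

set_option autoImplicit false

namespace Pool.Agent.Helper705.Hopf

open LaurentPolynomial

/-- the Laurent polynomial ring -/
abbrev SL := LaurentPolynomial (ZMod 2)

/-- the variable as a unit -/
noncomputable def sL : SLˣ where
  val := T 1
  inv := T (-1)
  val_inv := by rw [← T_add]; simp
  inv_val := by rw [← T_add]; simp

lemma sL_zpow (n : ℤ) : ((sL ^ n : SLˣ) : SL) = T n := by
  have hnat : ∀ m : ℕ, ((sL ^ m : SLˣ) : SL) = T m := by
    intro m
    rw [Units.val_pow_eq_pow_val]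
    change (T 1 : SL) ^ m = T m
    rw [T_pow]; simp
  rcases Int.natAbs_eq n with h | h
  · rw [h, zpow_natCast, hnat]
  · rw [h, zpow_neg, zpow_natCast]
    have h1 : (sL ^ n.natAbs : SLˣ)⁻¹ = ⟨T (-(n.natAbs : ℤ)), T (n.natAbs : ℤ),
      by rw [← T_add]; simp, by rw [← T_add]; simp⟩ := by
      rw [inv_eq_iff_eq_inv]
      apply Units.ext
      rw [hnat]; rfl
    rw [h1]

lemma two_SL : (2 : SL) = 0 := by
  have h : (2 : ZMod 2) = 0 := rfl
  have h' := map_ofNat (algebraMap (ZMod 2) SL) 2
  rw [← h']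
  have h'' : (OfNat.ofNat 2 : ZMod 2) = 0 := h
  rw [h'', map_zero]

lemma T_coeff (j : ℤ) (c : SL) (n : ℤ) : (T j * c).coeff n = c.coeff (n - j) := by
  have := AddMonoidAlgebra.coeff_single_mul_apply c (1 : ZMod 2) j n
  rw [one_mul] at this
  change (AddMonoidAlgebra.single j 1 * c).coeff n = _
  rw [this]; congr 1; ring

/-- the base label -/
noncomputable def v0 : SL := 1 + T 2 + T 3 + T 4

lemma v0_coeff (n : ℤ) : v0.coeff n = if n = 0 ∨ n = 2 ∨ n = 3 ∨ n = 4 then 1 else 0 := by
  have h1 : (1 : SL) = T 0 := T_zero.symm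
  unfold v0
  rw [h1]
  simp only [AddMonoidAlgebra.coeff_add, Finsupp.add_apply, T_apply]
  by_cases h0 : n = 0
  · subst h0; simp
  by_cases h2 : n = 2
  · subst h2; simp
  by_cases h3 : n = 3
  · subst h3; simp
  by_cases h4 : n = 4
  · subst h4; simp
  simp [h0, h2, h3, h4, Ne.symm h0, Ne.symm h2, Ne.symm h3, Ne.symm h4]

lemma v0_eq : (1 - T 1 : SL) + T 1 * (1 - T 1) + T 3 * (1 - T 1) = v0 := by
  unfold v0
  have h1 : (T 1 : SL) * T 1 = T 2 := by rw [← T_add]; norm_num
  have h2 : (T 3 : SL) * T 1 = T 4 := by rw [← T_add]; norm_num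
  linear_combination (-1 : SL) * h1 - h2 - (T 2 + T 4) * two_SL

lemma v0_ne : v0 ≠ 0 := by
  intro h
  have := v0_coeff 0
  rw [h] at this
  simp at this

lemma v0_shift_ne (k : ℤ) (hk : 1 ≤ k) : T (-k) * v0 ≠ v0 := by
  intro h
  have h1 := congrArg (fun f : SL => f.coeff 4) h
  simp only [T_coeff] at h1
  have hL : v0.coeff (4 - -k) = 0 := by rw [v0_coeff, if_neg (by omega)]
  have hR : v0.coeff 4 = 1 := by rw [v0_coeff, if_pos (by omega)]
  rw [hL, hR] at h1
  exact absurd h1 (by decide)

lemma nt (j k : ℤ) (hj : j < 0) (c : SL) (h : c + T j * c + T (3 * j) * c = T (-k) * v0) :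
    False := by
  have hc : ∀ n : ℤ, c.coeff n + c.coeff (n - j) + c.coeff (n - 3 * j) = v0.coeff (n + k) := by
    intro n
    have h1 := congrArg (fun f : SL => f.coeff n) h
    simp only [AddMonoidAlgebra.coeff_add, Finsupp.add_apply, T_coeff] at h1
    rw [h1]; congr 1; ring
  have hne : c.coeff.support.Nonempty := by
    rw [Finset.nonempty_iff_ne_empty]
    intro he
    have h0 : ∀ n, c.coeff n = 0 := by
      intro n
      rw [Finsupp.support_eq_empty] at he
      rw [he]; rfl
    have := hc (-k)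
    rw [h0, h0, h0, v0_coeff] at this
    simp at this
  set a := c.coeff.support.min' hne with ha
  set b := c.coeff.support.max' hne with hb
  have ha1 : c.coeff a = 1 := by
    have := Finset.min'_mem _ hne
    rw [← ha, Finsupp.mem_support_iff] at this
    revert this; generalize c.coeff a = y; revert y; decide
  have hb1 : c.coeff b = 1 := by
    have := Finset.max'_mem _ hne
    rw [← hb, Finsupp.mem_support_iff] at this
    revert this; generalize c.coeff b = y; revert y; decide
  have hlow : ∀ n < a, c.coeff n = 0 := by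
    intro n hn
    by_contra hcon
    have := Finset.min'_le c.coeff.support n (by rwa [Finsupp.mem_support_iff])
    omega
  have hhigh : ∀ n, b < n → c.coeff n = 0 := by
    intro n hn
    by_contra hcon
    have := Finset.le_max' c.coeff.support n (by rwa [Finsupp.mem_support_iff])
    omega
  have hab : a ≤ b := Finset.min'_le _ _ (Finset.max'_mem _ hne)
  have hV : ∀ n, v0.coeff n = 1 → n = 0 ∨ n = 2 ∨ n = 3 ∨ n = 4 := by
    intro n hn
    rw [v0_coeff] at hn
    by_contra hcon
    rw [if_neg hcon] at hn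
    exact absurd hn (by decide)
  have e1 := hc (a + 3 * j)
  rw [hlow (a + 3 * j) (by omega), hlow (a + 3 * j - j) (by omega),
    show a + 3 * j - 3 * j = a by ring, ha1, zero_add, zero_add] at e1
  have e2 := hc b
  rw [hhigh (b - j) (by omega), hhigh (b - 3 * j) (by omega), hb1, add_zero, add_zero] at e2
  have f1 := hV _ e1.symm
  have f2 := hV _ e2.symm
  have hj1 : j = -1 := by omega
  subst hj1
  have hcase : (b = a ∧ b + k = 3) ∨ (b = a + 1 ∧ b + k = 4) := by omega
  rcases hcase with ⟨hba, hbk⟩ | ⟨hba, hbk⟩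
  · have e3 := hc (b + 1)
    rw [hhigh (b + 1) (by omega), hhigh (b + 1 - -1) (by omega), hhigh (b + 1 - 3 * -1) (by omega),
      v0_coeff, if_pos (by omega)] at e3
    exact absurd e3 (by decide)
  · have e3 := hc (a - 2)
    rw [hlow (a - 2) (by omega), hlow (a - 2 - -1) (by omega),
      show a - 2 - 3 * -1 = b by omega, hb1, v0_coeff, if_neg (by omega)] at e3
    exact absurd e3 (by decide)

end Pool.Agent.Helper705.Hopf
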