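import Mathlib
import Pool.Agent.Helper705.SRF.Ext
import Pool.Agent.Helper705.SRF.Wr
import Pool.Agent.Helper705.Hopf.HForm

set_option autoImplicit false

open scoped commutatorElement

namespace Pool.Agent.Helper705.Hopf

open Pool.Agent.Helper705.SRF

variable {S : Type} [CommRing S] (s : Sˣ)

/-- the wreath-like group over the affine group -/
abbrev WA := Wr (Aff.toPerm (S := S) (s := s))

/-- the free group on it -/
abbrev FA := FF (Aff.toPerm (S := S) (s := s))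

/-- the preimage of the bottom layer -/
noncomputable abbrev NA : Subgroup (FA s) := NN (Aff.toPerm (S := S) (s := s))

/-- its commutator subgroup -/
noncomputable abbrev DA : Subgroup (FA s) := ⁅NA s, NA s⁆

lemma DA_le : DA s ≤ NA s := Subgroup.commutator_le_left _ _

/-- the exponent of an element of the free group -/
noncomputable def deg (f : FA s) : ℤ := (ev _ f).right.n

lemma deg_mul (f g : FA s) : deg s (f * g) = deg s f + deg s g := by
  simp [deg]

lemma deg_one : deg s (1 : FA s) = 0 := by simp [deg]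

lemma deg_inv (f : FA s) : deg s f⁻¹ = - deg s f := by simp [deg]

/-- the label of an element of `NA` -/
noncomputable def labA (n : NA s) : S →₀ ZMod 2 := Multiplicative.toAdd (lab _ n)

lemma labA_D (d : FA s) (hd : d ∈ DA s) : labA s ⟨d, DA_le s hd⟩ = 0 := by
  have h1 : d ∈ Subgroup.map (NA s).subtype (commutator (NA s)) := by
    rw [Subgroup.map_subtype_commutator]; exact hd
  obtain ⟨n, hn, rfl⟩ := h1
  have h2 := Abelianization.commutator_subset_ker (lab (Aff.toPerm (S := S) (s := s))) hn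
  have h3 : lab (Aff.toPerm (S := S) (s := s)) n = 1 := h2
  change Multiplicative.toAdd (lab (Aff.toPerm (S := S) (s := s)) n) = 0
  rw [h3]; rfl

theorem exists_theta (h2 : (2 : S) = 0) : ∃ Θ : DA s →* Multiplicative (Lab S),
    (∀ (a b : NA s) (h : ⁅(a : FA s), (b : FA s)⁆ ∈ DA s),
      Multiplicative.toAdd (Θ ⟨_, h⟩) = bet (labA s a) (labA s b)) ∧
    (∀ (f d : FA s) (hd : d ∈ DA s) (h : f * d * f⁻¹ ∈ DA s),
      Multiplicative.toAdd (Θ ⟨_, h⟩) = scal (s ^ deg s f) (Multiplicative.toAdd (Θ ⟨d, hd⟩))) := by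
  classical
  let _ : LinearOrder S := IsWellOrder.linearOrder (WellOrderingRel (α := S))
  have _ : IsFreeGroup (NA s) := subgroupIsFreeOfIsFree (NA s)
  obtain ⟨ρ, hρ⟩ := Ext.exists_lift (BCAdd (kL (S := S))) (lab (Aff.toPerm (S := S) (s := s)))
  have hρ0 : ∀ (d : FA s) (hd : d ∈ DA s), (ρ ⟨d, DA_le s hd⟩).fst = 0 := by
    intro d hd
    rw [hρ]
    exact labA_D s d hd
  let Θ : DA s →* Multiplicative (Lab S) :=
    { toFun := fun d => Multiplicative.ofAdd (ρ ⟨d.1, DA_le s d.2⟩).snd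
      map_one' := by
        have : (⟨((1 : DA s) : FA s), DA_le s (1 : DA s).2⟩ : NA s) = 1 := rfl
        rw [this, map_one]; rfl
      map_mul' := by
        intro a b
        have : (⟨((a * b : DA s) : FA s), DA_le s (a * b).2⟩ : NA s) =
          ⟨a.1, DA_le s a.2⟩ * ⟨b.1, DA_le s b.2⟩ := rfl
        rw [this, map_mul, Ext.mul_snd, hρ0 a.1 a.2]
        simp }
  have T1 : ∀ (a b : NA s) (h : ⁅(a : FA s), (b : FA s)⁆ ∈ DA s),
      Multiplicative.toAdd (Θ ⟨_, h⟩) = bet (labA s a) (labA s b) := by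
    intro a b h
    have e : (⟨⁅(a : FA s), (b : FA s)⁆, DA_le s h⟩ : NA s) = ⁅a, b⁆ := by
      apply Subtype.ext
      simp [commutatorElement_def]
    change (ρ ⟨⁅(a : FA s), (b : FA s)⁆, DA_le s h⟩).snd = _
    rw [e, map_commutatorElement, Ext.comm_eq, hρ, hρ, BCAdd_apply, BCAdd_apply,
      bet_sub_swap h2]
    rfl
  refine ⟨Θ, T1, ?_⟩
  intro f d hd
  have hnorm : ∀ x ∈ DA s, f * x * f⁻¹ ∈ DA s := fun x hx =>
    (inferInstance : (DA s).Normal).conj_mem x hx f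
  suffices H : ∀ h : f * d * f⁻¹ ∈ DA s, Multiplicative.toAdd (Θ ⟨_, h⟩) =
      scal (s ^ deg s f) (Multiplicative.toAdd (Θ ⟨d, hd⟩)) from H
  have hd' := hd
  change d ∈ ⁅NA s, NA s⁆ at hd'
  rw [Subgroup.commutator_def] at hd'
  induction hd' using Subgroup.closure_induction with
  | mem x hx =>
    intro h
    obtain ⟨a, ha, b, hb, rfl⟩ := hx
    have e1 := T1 ⟨a, ha⟩ ⟨b, hb⟩ hd
    have h' : ⁅((MulAut.conjNormal f (⟨a, ha⟩ : NA s) : NA s) : FA s),
        ((MulAut.conjNormal f (⟨b, hb⟩ : NA s) : NA s) : FA s)⁆ ∈ DA s :=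
      Subgroup.commutator_mem_commutator (SetLike.coe_mem _) (SetLike.coe_mem _)
    have e2 := T1 (MulAut.conjNormal f ⟨a, ha⟩) (MulAut.conjNormal f ⟨b, hb⟩) h'
    have e3 : (⟨f * ⁅a, b⁆ * f⁻¹, h⟩ : DA s) = ⟨_, h'⟩ := by
      apply Subtype.ext
      simp only [MulAut.conjNormal_apply, commutatorElement_def]
      group
    rw [e3, e2, e1]
    unfold labA
    rw [lab_conj, lab_conj]
    exact bet_perm _ _ _
  | one =>
    intro h
    have e1 : (⟨f * 1 * f⁻¹, h⟩ : DA s) = 1 := by apply Subtype.ext; simp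
    have e2 : (⟨1, hd⟩ : DA s) = 1 := rfl
    rw [e1, e2, map_one]; simp
  | mul x y hx hy ihx ihy =>
    intro h
    have hx' : x ∈ DA s := by change x ∈ ⁅NA s, NA s⁆; rw [Subgroup.commutator_def]; exact hx
    have hy' : y ∈ DA s := by change y ∈ ⁅NA s, NA s⁆; rw [Subgroup.commutator_def]; exact hy
    have e1 : (⟨f * (x * y) * f⁻¹, h⟩ : DA s) = ⟨_, hnorm x hx'⟩ * ⟨_, hnorm y hy'⟩ := by
      apply Subtype.ext; simp
    have e2 : (⟨x * y, hd⟩ : DA s) = ⟨x, hx'⟩ * ⟨y, hy'⟩ := rfl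
    rw [e1, e2, Θ.map_mul, Θ.map_mul, toAdd_mul, toAdd_mul, ihx hx' (hnorm x hx'),
      ihy hy' (hnorm y hy'), map_add]
  | inv x hx ihx =>
    intro h
    have hx' : x ∈ DA s := by change x ∈ ⁅NA s, NA s⁆; rw [Subgroup.commutator_def]; exact hx
    have e1 : (⟨f * x⁻¹ * f⁻¹, h⟩ : DA s) = (⟨_, hnorm x hx'⟩)⁻¹ := by
      apply Subtype.ext; simp [mul_assoc]
    have e2 : (⟨x⁻¹, hd⟩ : DA s) = (⟨x, hx'⟩)⁻¹ := rfl
    rw [e1, e2, Θ.map_inv, Θ.map_inv, toAdd_inv, toAdd_inv, ihx hx' (hnorm x hx'), map_neg]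

end Pool.Agent.Helper705.Hopf
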