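import Mathlib
import Pool.Agent.Helper705.Hopf.HTheta
import Pool.Agent.Helper705.Hopf.HAbs

set_option autoImplicit false

open scoped commutatorElement

namespace Pool.Agent.Helper705.Hopf

open Pool.Agent.Helper705.SRF

variable {S : Type} [CommRing S] (s : Sˣ)

/-- sign of a residue modulo two in the integers modulo three -/
def sgn (a : ZMod 2) : ZMod 3 := if a = 0 then 1 else -1

lemma sgn_add (a b : ZMod 2) : sgn (a + b) = sgn a * sgn b := by revert a b; decide

lemma sgn_zero : sgn 0 = 1 := rfl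

open Classical in
/-- total mass on a set of labels -/
noncomputable def lamY (Y : Set S) : Lab S →ₗ[ZMod 2] ZMod 2 :=
  Finsupp.linearCombination (ZMod 2) (fun v => if v ∈ Y then 1 else 0)

open Classical in
lemma lamY_single (Y : Set S) (v : S) (a : ZMod 2) :
    lamY Y (Finsupp.single v a) = if v ∈ Y then a else 0 := by
  simp [lamY]

/-- package of data -/
structure Dat where
  Θ : DA s →* Multiplicative (Lab S)
  T1 : ∀ (a b : NA s) (h : ⁅(a : FA s), (b : FA s)⁆ ∈ DA s),
      Multiplicative.toAdd (Θ ⟨_, h⟩) = bet (labA s a) (labA s b)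
  T2 : ∀ (f d : FA s) (hd : d ∈ DA s) (h : f * d * f⁻¹ ∈ DA s),
      Multiplicative.toAdd (Θ ⟨_, h⟩) = scal (s ^ deg s f) (Multiplicative.toAdd (Θ ⟨d, hd⟩))
  Y : Set S

variable {s}

namespace Dat

variable (D : Dat s)

/-- the additive value -/
noncomputable def th (d : FA s) (hd : d ∈ DA s) : Lab S := Multiplicative.toAdd (D.Θ ⟨d, hd⟩)

lemma conj_mem {d : FA s} (hd : d ∈ DA s) (f : FA s) : f * d * f⁻¹ ∈ DA s :=
  (inferInstance : (DA s).Normal).conj_mem d hd f

lemma th_conj (f d : FA s) (hd : d ∈ DA s) :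
    D.th (f * d * f⁻¹) (conj_mem hd f) = scal (s ^ deg s f) (D.th d hd) :=
  D.T2 f d hd _

lemma th_mul (d e : FA s) (hd : d ∈ DA s) (he : e ∈ DA s) :
    D.th (d * e) (mul_mem hd he) = D.th d hd + D.th e he := by
  have : (⟨d * e, mul_mem hd he⟩ : DA s) = ⟨d, hd⟩ * ⟨e, he⟩ := rfl
  unfold th
  rw [this, D.Θ.map_mul, toAdd_mul]

lemma th_inv (d : FA s) (hd : d ∈ DA s) : D.th d⁻¹ (inv_mem hd) = D.th d hd := by
  have : (⟨d⁻¹, inv_mem hd⟩ : DA s) = (⟨d, hd⟩)⁻¹ := rfl
  unfold th
  rw [this, D.Θ.map_inv, toAdd_inv, lab_neg]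

lemma th_comm (a b : FA s) (ha : a ∈ NA s) (hb : b ∈ NA s) (h : ⁅a, b⁆ ∈ DA s) :
    D.th ⁅a, b⁆ h = bet (labA s ⟨a, ha⟩) (labA s ⟨b, hb⟩) := D.T1 ⟨a, ha⟩ ⟨b, hb⟩ h

/-- the kernel -/
noncomputable def W : Subgroup (FA s) := D.Θ.ker.map (DA s).subtype

lemma mem_W (d : FA s) : d ∈ D.W ↔ ∃ hd : d ∈ DA s, D.th d hd = 0 := by
  constructor
  · rintro ⟨⟨e, he⟩, h1, rfl⟩
    exact ⟨he, h1⟩
  · rintro ⟨hd, h⟩
    exact ⟨⟨d, hd⟩, h, rfl⟩

instance : D.W.Normal := by
  constructor
  intro d hd f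
  rw [mem_W] at hd ⊢
  obtain ⟨h1, h2⟩ := hd
  exact ⟨conj_mem h1 f, by rw [th_conj D f d h1, h2, map_zero]⟩

/-- the module of equivariant functions -/
noncomputable def Lm : AddSubgroup (FA s → ZMod 3) where
  carrier := {φ | ∀ (d : FA s) (hd : d ∈ DA s) (w : FA s),
    φ (d * w) = sgn (lamY D.Y (D.th d hd)) * φ w}
  zero_mem' := by intro d hd w; simp
  add_mem' := by
    intro a b ha hb d hd w
    simp only [Pi.add_apply, ha d hd w, hb d hd w]; ring
  neg_mem' := by
    intro a ha d hd w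
    simp only [Pi.neg_apply, ha d hd w]; ring

/-- translation on the module -/
noncomputable def tr (f : FA s) : D.Lm →+ D.Lm where
  toFun φ := ⟨fun w => φ.1 (w * f), by
    intro d hd w
    change φ.1 (d * w * f) = _ * φ.1 (w * f)
    rw [mul_assoc]; exact φ.2 d hd (w * f)⟩
  map_zero' := rfl
  map_add' _ _ := rfl

@[simp] lemma tr_apply (f : FA s) (φ : D.Lm) (w : FA s) : (D.tr f φ).1 w = φ.1 (w * f) := rfl

/-- the action -/
noncomputable def actL : FA s →* MulAut (Multiplicative D.Lm) where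
  toFun f :=
    { toFun := fun φ => Multiplicative.ofAdd (D.tr f (Multiplicative.toAdd φ))
      invFun := fun φ => Multiplicative.ofAdd (D.tr f⁻¹ (Multiplicative.toAdd φ))
      left_inv := by
        intro φ
        apply Subtype.ext
        funext w
        change (Multiplicative.toAdd φ).1 (w * f⁻¹ * f) = (Multiplicative.toAdd φ).1 w
        simp
      right_inv := by
        intro φ
        apply Subtype.ext
        funext w
        change (Multiplicative.toAdd φ).1 (w * f * f⁻¹) = (Multiplicative.toAdd φ).1 w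
        simp
      map_mul' := by
        intro a b
        rfl }
  map_one' := by
    apply MulEquiv.ext
    intro φ
    apply Subtype.ext
    funext w
    change (Multiplicative.toAdd φ).1 (w * 1) = (Multiplicative.toAdd φ).1 w
    simp
  map_mul' f g := by
    apply MulEquiv.ext
    intro φ
    apply Subtype.ext
    funext w
    change (Multiplicative.toAdd φ).1 (w * (f * g)) = (Multiplicative.toAdd φ).1 (w * f * g)
    rw [mul_assoc]

lemma actL_apply (f : FA s) (φ : Multiplicative D.Lm) (w : FA s) :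
    (Multiplicative.toAdd (D.actL f φ)).1 w = (Multiplicative.toAdd φ).1 (w * f) := rfl

/-- action of elements of the commutator subgroup is diagonal -/
lemma diag (d : FA s) (hd : d ∈ DA s) (φ : D.Lm) (w : FA s) :
    φ.1 (w * d) = sgn (lamY D.Y (scal (s ^ deg s w) (D.th d hd))) * φ.1 w := by
  have h := φ.2 (w * d * w⁻¹) (conj_mem hd w) w
  rw [th_conj D w d hd] at h
  rw [← h]
  congr 1
  group

lemma actL_W (f : FA s) (hf : f ∈ D.W) : D.actL f = 1 := by
  rw [mem_W] at hf
  obtain ⟨h1, h2⟩ := hf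
  apply MulEquiv.ext
  intro φ
  apply Subtype.ext
  funext w
  change (Multiplicative.toAdd φ).1 (w * f) = (Multiplicative.toAdd φ).1 w
  rw [diag D f h1, h2, map_zero, map_zero, sgn_zero, one_mul]

/-- the acting group -/
abbrev G1 := FA s ⧸ D.W

/-- the action of the quotient -/
noncomputable def act1 : D.G1 →* MulAut (Multiplicative D.Lm) :=
  QuotientGroup.lift D.W D.actL (fun f hf => D.actL_W f hf)

/-- the final group -/
abbrev GG := Multiplicative D.Lm ⋊[D.act1] D.G1

lemma der_le [Group.IsSolvable (WA s)] : ∃ n, derivedSeries (FA s) n ≤ D.W := by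
  obtain ⟨n, hn⟩ := (inferInstance : Group.IsSolvable (WA s)).solvable
  refine ⟨n + 1, ?_⟩
  have hker : derivedSeries (FA s) n ≤ (ev (Aff.toPerm (S := S) (s := s))).ker := by
    intro a ha
    have : ev _ a ∈ derivedSeries (WA s) n :=
      map_derivedSeries_le_derivedSeries (ev _) n ⟨a, ha, rfl⟩
    rw [hn] at this
    exact this
  rw [derivedSeries_succ, Subgroup.commutator_le]
  intro a ha b hb
  have ha' : ev _ a = 1 := hker ha
  have hb' : ev _ b = 1 := hker hb
  have haN : a ∈ NA s := by change ev _ a ∈ botM _; rw [ha']; exact one_mem _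
  have hbN : b ∈ NA s := by change ev _ b ∈ botM _; rw [hb']; exact one_mem _
  rw [mem_W]
  refine ⟨Subgroup.commutator_mem_commutator haN hbN, ?_⟩
  rw [th_comm D a b haN hbN]
  have : labA s ⟨a, haN⟩ = 0 := by
    unfold labA
    rw [lab_apply]
    simp only [ha']; rfl
  rw [this]; simp

instance : Group.IsSolvable D.G1 := by
  obtain ⟨n, hn⟩ := D.der_le
  refine ⟨n, ?_⟩
  rw [← map_derivedSeries_eq (QuotientGroup.mk'_surjective D.W) n, Subgroup.map_eq_bot_iff,
    QuotientGroup.ker_mk']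
  exact hn

instance : Group.IsSolvable D.GG :=
  Group.isSolvable_of_ker_le_range (SemidirectProduct.inl (φ := D.act1))
    SemidirectProduct.rightHom (le_of_eq SemidirectProduct.range_inl_eq_ker_rightHom.symm)

lemma comm_W (d g : FA s) (hd : d ∈ DA s) (hg : deg s g = 0) : ⁅g, d⁆ ∈ D.W := by
  rw [mem_W]
  have h1 : ⁅g, d⁆ = (g * d * g⁻¹) * d⁻¹ := by rw [commutatorElement_def]
  have h2 : ⁅g, d⁆ ∈ DA s := by rw [h1]; exact mul_mem (conj_mem hd g) (inv_mem hd)
  refine ⟨h2, ?_⟩
  have h3 : D.th ⁅g, d⁆ h2 = D.th (g * d * g⁻¹) (conj_mem hd g) + D.th d⁻¹ (inv_mem hd) := by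
    rw [← th_mul]
    congr 1
  rw [h3, th_conj D g d hd, th_inv D d hd, hg, zpow_zero, scal_one, two_cancel]

end Dat

end Pool.Agent.Helper705.Hopf
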