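import Mathlib
import Pool.Agent.Helper705.Hopf.HMod

set_option autoImplicit false

open scoped commutatorElement

namespace Pool.Agent.Helper705.Hopf

open Pool.Agent.Helper705.SRF

section words

variable {G : Type} [Group G]

/-- the inner word -/
def rW (a : Fin 8 → G) : G := ⁅⁅a 0, a 1⁆ ^ 2, ⁅a 2, a 3⁆ ^ 2⁆

/-- the acting word -/
def gW (a : Fin 8 → G) : G :=
  ⁅a 4, a 5⁆ * (a 6 * ⁅a 4, a 5⁆ * (a 6)⁻¹) * ((a 6) ^ 3 * ⁅a 4, a 5⁆ * ((a 6) ^ 3)⁻¹)

/-- the central-type word -/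
def bW (a : Fin 8 → G) : G := ⁅rW a, gW a * rW a * (gW a)⁻¹⁆

lemma map_rW {H : Type} [Group H] (φ : G →* H) (x : Fin 8 → G) :
    φ (rW x) = rW (fun i => φ (x i)) := by
  simp [rW, map_commutatorElement]

lemma map_gW {H : Type} [Group H] (φ : G →* H) (x : Fin 8 → G) :
    φ (gW x) = gW (fun i => φ (x i)) := by
  simp [gW, map_commutatorElement]

lemma map_bW {H : Type} [Group H] (φ : G →* H) (x : Fin 8 → G) :
    φ (bW x) = bW (fun i => φ (x i)) := by
  simp [bW, map_commutatorElement, map_rW, map_gW]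

end words

variable {S : Type} [CommRing S] {s : Sˣ}

lemma aff_conj (x : Aff S s) (c : S) :
    x * ⟨0, c⟩ * x⁻¹ = ⟨0, ((s ^ x.n : Sˣ) : S) * c⟩ := by
  rw [mul_inv_eq_iff_eq_mul]
  ext
  · simp
  · simp [add_comm]

lemma aff_gW (a : Fin 8 → Aff S s) :
    gW a = ⟨0, (⁅a 4, a 5⁆).b + ((s ^ (a 6).n : Sˣ) : S) * (⁅a 4, a 5⁆).b +
      ((s ^ (3 * (a 6).n) : Sˣ) : S) * (⁅a 4, a 5⁆).b⟩ := by
  have hc : ⁅a 4, a 5⁆ = ⟨0, (⁅a 4, a 5⁆).b⟩ := by ext <;> simp
  unfold gW
  rw [hc, aff_conj, aff_conj]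
  ext
  · simp
  · simp

lemma rW_mem (h2 : (2 : S) = 0) (x : Fin 8 → FA s) : rW x ∈ NA s := by
  have h : ∀ a b : WA s, ∃ h : HB S, ⁅a, b⁆ ^ 2 = SemidirectProduct.inl h := by
    intro a b
    have : ⁅a, b⁆ ^ 2 ∈ (SemidirectProduct.rightHom : WA s →* Aff S s).ker := by
      rw [MonoidHom.mem_ker, map_pow, map_commutatorElement]
      exact Aff.comm_sq h2 _ _
    rw [← SemidirectProduct.range_inl_eq_ker_rightHom] at this
    obtain ⟨h, hh⟩ := this
    exact ⟨h, hh.symm⟩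
  change ev _ (rW x) ∈ botM _
  rw [map_rW]
  obtain ⟨h1, e1⟩ := h (ev _ (x 0)) (ev _ (x 1))
  obtain ⟨h2, e2⟩ := h (ev _ (x 2)) (ev _ (x 3))
  rw [rW, e1, e2, ← map_commutatorElement]
  refine ⟨rfl, ?_⟩
  rw [SemidirectProduct.left_inl, Ext.comm_eq]

lemma bW_mem (h2 : (2 : S) = 0) (x : Fin 8 → FA s) : bW x ∈ DA s :=
  Subgroup.commutator_mem_commutator (rW_mem h2 x)
    ((inferInstance : (NA s).Normal).conj_mem _ (rW_mem h2 x) (gW x))

/-- the label vector -/
noncomputable def vlab (x : Fin 8 → FA s) (c : S) : S :=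
  c + ((s ^ (deg s (x 6)) : Sˣ) : S) * c + ((s ^ (3 * deg s (x 6)) : Sˣ) : S) * c

open Classical in
lemma th_bW (h2 : (2 : S) = 0) (D : Dat s) (x : Fin 8 → FA s) (c : S)
    (hc : (⁅(ev _ (x 4)).right, (ev _ (x 5)).right⁆ : Aff S s).b = c) :
    D.th (bW x) (bW_mem h2 x) = if vlab x c = 0 then 0 else
      Finsupp.single (vlab x c) (aug (labA s ⟨rW x, rW_mem h2 x⟩)) := by
  have hconj : gW x * rW x * (gW x)⁻¹ ∈ NA s :=
    (inferInstance : (NA s).Normal).conj_mem _ (rW_mem h2 x) (gW x)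
  have h1 : D.th (bW x) (bW_mem h2 x) = bet (labA s ⟨rW x, rW_mem h2 x⟩)
      (labA s ⟨gW x * rW x * (gW x)⁻¹, hconj⟩) :=
    D.th_comm (rW x) (gW x * rW x * (gW x)⁻¹) (rW_mem h2 x) hconj _
  have h3 : labA s ⟨gW x * rW x * (gW x)⁻¹, hconj⟩ =
      Finsupp.mapDomain (Aff.toPerm (ev _ (gW x)).right) (labA s ⟨rW x, rW_mem h2 x⟩) := by
    have e : (⟨gW x * rW x * (gW x)⁻¹, hconj⟩ : NA s) =
        MulAut.conjNormal (gW x) (⟨rW x, rW_mem h2 x⟩ : NA s) := by
      apply Subtype.ext; simp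
    rw [e]
    exact lab_conj _ _ _
  have h4 : (ev (Aff.toPerm (S := S) (s := s)) (gW x)).right = ⟨0, vlab x c⟩ := by
    have := map_gW ((SemidirectProduct.rightHom : WA s →* Aff S s).comp (ev _)) x
    refine this.trans ?_
    rw [aff_gW]
    change (⟨0, (⁅(ev _ (x 4)).right, (ev _ (x 5)).right⁆ : Aff S s).b + _ * (⁅(ev _ (x 4)).right, (ev _ (x 5)).right⁆ : Aff S s).b + _ * (⁅(ev _ (x 4)).right, (ev _ (x 5)).right⁆ : Aff S s).b⟩ : Aff S s) = _
    rw [hc]; rfl
  rw [h1, h3, h4]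
  by_cases hv : vlab x c = 0
  · rw [if_pos hv, hv]
    have : (⟨0, 0⟩ : Aff S s) = 1 := rfl
    rw [this, map_one, mapDomain_one_perm, bet_self h2]
  · rw [if_neg hv, bet_transl h2 _ hv]

/-- indicator -/
def ind (a : ZMod 2) : ZMod 3 := if a = 0 then 0 else 1

lemma sgn_sub (a : ZMod 2) : sgn a - 1 = ind a := by revert a; decide

lemma ind_sq (a : ZMod 2) : ind a * ind a = ind a := by revert a; decide

namespace Dat

variable (D : Dat s)

/-- inclusion of the module -/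
noncomputable def io : Multiplicative D.Lm →* D.GG := SemidirectProduct.inl

/-- the conjugation action -/
noncomputable def ka : D.GG →* MulAut (Multiplicative D.Lm) :=
  D.act1.comp SemidirectProduct.rightHom

lemma ka_conj (g : D.GG) (a : Multiplicative D.Lm) : g * D.io a * g⁻¹ = D.io (D.ka g a) := by
  rw [mul_inv_eq_iff_eq_mul]
  apply SemidirectProduct.ext
  · simp [io, ka, mul_comm]
  · simp [io]

lemma ka_io (a : Multiplicative D.Lm) : D.ka (D.io a) = 1 := by
  simp [ka, io]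

lemma io_inj : Function.Injective D.io := SemidirectProduct.inl_injective

lemma ka_mk (g : D.GG) (f : FA s) (hf : g.right = QuotientGroup.mk f) (φ : Multiplicative D.Lm)
    (w : FA s) : (Multiplicative.toAdd (D.ka g φ)).1 w = (Multiplicative.toAdd φ).1 (w * f) := by
  have : D.ka g = D.actL f := by
    change D.act1 g.right = _
    rw [hf]; rfl
  rw [this]; rfl

/-- the exponent function of an element of the commutator layer -/
noncomputable def lmb (d : FA s) (hd : d ∈ DA s) (w : FA s) : ZMod 2 :=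
  lamY D.Y (scal (s ^ deg s w) (D.th d hd))

lemma EE_formula (b : D.GG) (d : FA s) (hd : d ∈ DA s) (hb : b.right = QuotientGroup.mk d)
    (φ : Multiplicative D.Lm) (w : FA s) :
    (Multiplicative.toAdd (EE D.ka b φ)).1 w =
      ind (D.lmb d hd w) * (Multiplicative.toAdd φ).1 w := by
  have h1 : (Multiplicative.toAdd (EE D.ka b φ)).1 w =
      (Multiplicative.toAdd (D.ka b φ)).1 w - (Multiplicative.toAdd φ).1 w := by
    rw [EE_val]
    change ((Multiplicative.toAdd (D.ka b φ)) + -(Multiplicative.toAdd φ)).1 w = _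
    rw [sub_eq_add_neg]; rfl
  rw [h1, ka_mk D b d hb, diag D d hd, ← sgn_sub]
  unfold lmb
  ring

lemma deg_comm (f g : FA s) : deg s ⁅f, g⁆ = 0 := by
  rw [commutatorElement_def, deg_mul, deg_mul, deg_mul, deg_inv, deg_inv]; ring

lemma mF_mem (b x z : D.GG) (d : FA s) (hd : d ∈ DA s) (hb : b.right = QuotientGroup.mk d) :
    ∃ m, mF b x z = D.io m := by
  have h : mF b x z ∈ (SemidirectProduct.rightHom : D.GG →* D.G1).ker := by
    rw [MonoidHom.mem_ker, map_mF]
    change mF b.right x.right z.right = 1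
    obtain ⟨xf, hxf⟩ := QuotientGroup.mk_surjective x.right
    obtain ⟨zf, hzf⟩ := QuotientGroup.mk_surjective z.right
    rw [hb, ← hxf, ← hzf]
    have : mF (QuotientGroup.mk d : D.G1) (QuotientGroup.mk xf) (QuotientGroup.mk zf) =
        QuotientGroup.mk' D.W (mF d xf zf) := by
      rw [map_mF]; rfl
    rw [this]
    exact (QuotientGroup.eq_one_iff _).mpr (comm_W D d _ hd (deg_comm _ _))
  rw [← SemidirectProduct.range_inl_eq_ker_rightHom] at h
  obtain ⟨m, hm⟩ := h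
  exact ⟨m, hm.symm⟩

/-- the law -/
theorem law (h2 : (2 : S) = 0)
    (hY : ∀ (j : ℤ) (c : S), (c + ((s ^ j : Sˣ) : S) * c + ((s ^ (3 * j) : Sˣ) : S) * c) ∈ D.Y →
      ((s ^ (-j) : Sˣ) : S) * (c + ((s ^ j : Sˣ) : S) * c + ((s ^ (3 * j) : Sˣ) : S) * c) ∈ D.Y)
    (a : Fin 8 → D.GG) :
    vF (bW a) (a 6) (wF (bW a) (a 6) (a 7)) = a 7 := by
  classical
  choose f hf using fun i => QuotientGroup.mk_surjective (a i).right
  have hb : (bW a).right = QuotientGroup.mk (bW f) := by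
    have e1 := map_bW (SemidirectProduct.rightHom : D.GG →* D.G1) a
    have e2 := map_bW (QuotientGroup.mk' D.W) f
    have e3 : (fun i => (SemidirectProduct.rightHom : D.GG →* D.G1) (a i)) =
        (fun i => QuotientGroup.mk' D.W (f i)) := by
      funext i; exact (hf i).symm
    rw [e3] at e1
    exact e1.trans e2.symm
  obtain ⟨m, hm⟩ := D.mF_mem (bW a) (a 6) (a 7) (bW f) (bW_mem h2 f) hb
  refine vw_id D.io D.ka D.ka_conj D.ka_io (bW a) (a 6) (a 7) m hm ?_ ?_
  · intro φ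
    apply Subtype.ext
    funext w
    change (Multiplicative.toAdd (EE D.ka (bW a) (EE D.ka (bW a) φ))).1 w =
      (Multiplicative.toAdd (EE D.ka (bW a) φ)).1 w
    rw [EE_formula D _ _ (bW_mem h2 f) hb, EE_formula D _ _ (bW_mem h2 f) hb, ← mul_assoc, ind_sq]
  · intro φ
    apply Subtype.ext
    funext w
    have ht : (a 7 * a 6 * (a 7)⁻¹).right = QuotientGroup.mk (f 7 * f 6 * (f 7)⁻¹) := by
      rw [SemidirectProduct.mul_right, SemidirectProduct.mul_right, SemidirectProduct.inv_right,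
        ← hf 7, ← hf 6]; rfl
    have ht' : ((a 7 * a 6 * (a 7)⁻¹)⁻¹).right = QuotientGroup.mk (f 7 * f 6 * (f 7)⁻¹)⁻¹ := by
      rw [SemidirectProduct.inv_right, ht]; rfl
    change (Multiplicative.toAdd (EE D.ka (bW a) (D.ka (a 7 * a 6 * (a 7)⁻¹)⁻¹
      (EE D.ka (bW a) (D.ka (a 7 * a 6 * (a 7)⁻¹) φ))))).1 w =
      (Multiplicative.toAdd (EE D.ka (bW a) φ)).1 w
    set t := f 7 * f 6 * (f 7)⁻¹ with htdef
    rw [EE_formula D _ _ (bW_mem h2 f) hb, ka_mk D _ _ ht', EE_formula D _ _ (bW_mem h2 f) hb,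
      ka_mk D _ _ ht, EE_formula D _ _ (bW_mem h2 f) hb]
    rw [inv_mul_cancel_right, ← mul_assoc]
    congr 1
    -- monotonicity
    have hmono : D.lmb (bW f) (bW_mem h2 f) w ≠ 0 → D.lmb (bW f) (bW_mem h2 f) (w * t⁻¹) ≠ 0 := by
      unfold lmb
      rw [th_bW h2 D f _ rfl]
      set c := (⁅(ev _ (f 4)).right, (ev _ (f 5)).right⁆ : Aff S s).b
      set ε := aug (labA s ⟨rW f, rW_mem h2 f⟩)
      by_cases hv : vlab f c = 0
      · rw [if_pos hv]; simp
      · rw [if_neg hv, scal_single, scal_single, lamY_single, lamY_single]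
        intro h
        have hmem : ((s ^ deg s w : Sˣ) : S) * vlab f c ∈ D.Y := by
          by_contra hcon
          rw [if_neg hcon] at h
          exact h rfl
        rw [if_pos hmem] at h
        have hkey := hY (deg s (f 6)) (((s ^ deg s w : Sˣ) : S) * c) (by
          have e : ((s ^ deg s w : Sˣ) : S) * vlab f c = ((s ^ deg s w : Sˣ) : S) * c +
            ((s ^ deg s (f 6) : Sˣ) : S) * (((s ^ deg s w : Sˣ) : S) * c) +
            ((s ^ (3 * deg s (f 6)) : Sˣ) : S) * (((s ^ deg s w : Sˣ) : S) * c) := by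
            unfold vlab; ring
          rw [← e]; exact hmem)
        have hdeg : deg s (w * t⁻¹) = -deg s (f 6) + deg s w := by
          rw [htdef, deg_mul, deg_inv, deg_mul, deg_mul, deg_inv]; ring
        have hmem' : ((s ^ deg s (w * t⁻¹) : Sˣ) : S) * vlab f c ∈ D.Y := by
          rw [hdeg, zpow_add, Units.val_mul]
          have e : ((s ^ (-deg s (f 6)) : Sˣ) : S) * ((s ^ deg s w : Sˣ) : S) * vlab f c =
            ((s ^ (-deg s (f 6)) : Sˣ) : S) * (((s ^ deg s w : Sˣ) : S) * c +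
            ((s ^ deg s (f 6) : Sˣ) : S) * (((s ^ deg s w : Sˣ) : S) * c) +
            ((s ^ (3 * deg s (f 6)) : Sˣ) : S) * (((s ^ deg s w : Sˣ) : S) * c)) := by
            unfold vlab; ring
          rw [e]; exact hkey
        rw [if_pos hmem']
        exact h
    by_cases h0 : D.lmb (bW f) (bW_mem h2 f) w = 0
    · rw [h0]; simp [ind]
    · have h1 := hmono h0
      have e : ind (D.lmb (bW f) (bW_mem h2 f) (w * t⁻¹)) = 1 := by
        unfold ind; rw [if_neg h1]
      rw [e, mul_one]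

end Dat

end Pool.Agent.Helper705.Hopf
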