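import Mathlib
import Pool.Agent.Helper705.Hopf.HLaw
import Pool.Agent.Helper705.Hopf.HLaur
import Pool.Agent.Helper705.SRF.Inst

set_option autoImplicit false

open scoped commutatorElement

namespace Pool.Agent.Helper705.Hopf

open Pool.Agent.Helper705.SRF

section general

variable {S : Type} [CommRing S] (s : Sˣ)

/-- element supported at the origin, first coordinate -/
noncomputable def ua (S : Type) [CommRing S] : HB S := ⟨(Finsupp.single 0 1, 0), 0⟩
/-- element supported at the origin, second coordinate -/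
noncomputable def ub (S : Type) [CommRing S] : HB S := ⟨(0, Finsupp.single 0 1), 0⟩

lemma rW_left (y : Fin 8 → WA s) (a b t : Aff S s) (u v : HB S)
    (hab : ⁅a, t⁆ ^ 2 = 1) (hbb : ⁅b, t⁆ ^ 2 = 1)
    (h1 : y 0 = SemidirectProduct.inr a)
    (h2 : y 1 = SemidirectProduct.inl u * SemidirectProduct.inr t)
    (h3 : y 2 = SemidirectProduct.inr b)
    (h4 : y 3 = SemidirectProduct.inl v * SemidirectProduct.inr t) :
    (rW y).left = ⁅(actFun (Aff.toPerm a) u * (actFun (Aff.toPerm ⁅a, t⁆) u)⁻¹) *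
        actFun (Aff.toPerm ⁅a, t⁆) (actFun (Aff.toPerm a) u * (actFun (Aff.toPerm ⁅a, t⁆) u)⁻¹),
      (actFun (Aff.toPerm b) v * (actFun (Aff.toPerm ⁅b, t⁆) v)⁻¹) *
        actFun (Aff.toPerm ⁅b, t⁆)
          (actFun (Aff.toPerm b) v * (actFun (Aff.toPerm ⁅b, t⁆) v)⁻¹)⁆ := by
  rw [rW, h1, h2, h3, h4, comm_inl, comm_inl, sq_inl _ _ hab, sq_inl _ _ hbb,
    ← map_commutatorElement, SemidirectProduct.left_inl]

lemma rW_val (y : Fin 8 → WA s) (a b : S) (h2 : (2 : S) = 0)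
    (h1 : y 0 = SemidirectProduct.inr ⟨0, a⟩)
    (h2' : y 1 = SemidirectProduct.inl (ua S) * SemidirectProduct.inr ⟨1, 0⟩)
    (h3 : y 2 = SemidirectProduct.inr ⟨0, b⟩)
    (h4 : y 3 = SemidirectProduct.inl (ub S) * SemidirectProduct.inr ⟨1, 0⟩) :
    (rW y).left.snd =
      (Finsupp.single a 1 + Finsupp.single (a - s * a) 1 + Finsupp.single (a - s * a + a) 1
        + Finsupp.single 0 1) *
      (Finsupp.single b 1 + Finsupp.single (b - s * b) 1 + Finsupp.single (b - s * b + b) 1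
        + Finsupp.single 0 1) := by
  rw [rW_left s y ⟨0, a⟩ ⟨0, b⟩ ⟨1, 0⟩ (ua S) (ub S)
    (Aff.comm_sq h2 _ _) (Aff.comm_sq h2 _ _) h1 h2' h3 h4]
  rw [Ext.comm_eq, Aff.comm_trans, Aff.comm_trans]
  have e1 : ∀ c : S, c - s * c + (c - s * c) = 0 := fun c => by linear_combination (c - s * c) * h2
  simp [ua, ub, Finsupp.mapDomain_add, Finsupp.mapDomain_single, fneg, e1]
  simp only [add_comm (a - ↑s * a) a, add_comm (b - ↑s * b) b, add_assoc]

end general

section concrete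

open LaurentPolynomial

/-- the test tuple -/
noncomputable def yL : Fin 8 → WA sL := fun i =>
  if i = 0 then SemidirectProduct.inr ⟨0, 1⟩
  else if i = 1 then SemidirectProduct.inl (ua SL) * SemidirectProduct.inr ⟨1, 0⟩
  else if i = 2 then SemidirectProduct.inr ⟨0, T 2⟩
  else if i = 3 then SemidirectProduct.inl (ub SL) * SemidirectProduct.inr ⟨1, 0⟩
  else if i = 4 then SemidirectProduct.inr ⟨0, 1⟩
  else SemidirectProduct.inr ⟨1, 0⟩

lemma sL_val : ((sL : SLˣ) : SL) = T 1 := rfl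

lemma ne_coeff (f g : SL) (n : ℤ) (h : f.coeff n ≠ g.coeff n) : f ≠ g := fun e => h (by rw [e])

lemma one_coeff (n : ℤ) : (1 : SL).coeff n = if n = 0 then 1 else 0 := by
  rw [← T_zero, T_apply]
  by_cases h : n = 0
  · subst h; simp
  · simp [h, Ne.symm h]

lemma aug_yL : aug (rW yL).left.snd = 1 := by
  rw [rW_val sL yL 1 (T 2) two_SL (by simp [yL]) (by simp [yL]) (by simp [yL]) (by simp [yL])]
  have hT : (T 1 : SL) * T 2 = T 3 := by rw [← T_add]; norm_num
  have a1 : (T 2 : SL) ≠ 1 := by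
    apply ne_coeff _ _ 0; simp [one_coeff]
  have a2 : (T 2 : SL) ≠ 1 - T 1 * 1 := by
    apply ne_coeff _ _ 0; simp [one_coeff]
  have a3 : (T 2 : SL) ≠ 1 - T 1 * 1 + 1 := by
    apply ne_coeff _ _ 1; simp [one_coeff]
  have a4 : (T 2 : SL) ≠ 0 := by
    apply ne_coeff _ _ 2; simp
  have b1 : (T 2 - T 3 : SL) ≠ 1 := by
    apply ne_coeff _ _ 0; simp [one_coeff]
  have b2 : (T 2 - T 3 : SL) ≠ 1 - T 1 * 1 := by
    apply ne_coeff _ _ 0; simp [one_coeff]
  have b3 : (T 2 - T 3 : SL) ≠ 1 - T 1 * 1 + 1 := by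
    apply ne_coeff _ _ 1; simp [one_coeff]
  have b4 : (T 2 - T 3 : SL) ≠ 0 := by
    apply ne_coeff _ _ 2; simp
  have c1 : (T 2 - T 3 + T 2 : SL) ≠ 1 := by
    apply ne_coeff _ _ 0; simp [one_coeff]
  have c2 : (T 2 - T 3 + T 2 : SL) ≠ 1 - T 1 * 1 := by
    apply ne_coeff _ _ 0; simp [one_coeff]
  have c3 : (T 2 - T 3 + T 2 : SL) ≠ 1 - T 1 * 1 + 1 := by
    apply ne_coeff _ _ 1; simp [one_coeff]
  have c4 : (T 2 - T 3 + T 2 : SL) ≠ 0 := by
    apply ne_coeff _ _ 3; simp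
  have d1 : (0 : SL) ≠ 1 := by
    apply ne_coeff _ _ 0; simp [one_coeff]
  have d2 : (0 : SL) ≠ 1 - T 1 * 1 := by
    apply ne_coeff _ _ 0; simp [one_coeff]
  have d3 : (0 : SL) ≠ 1 - T 1 * 1 + 1 := by
    apply ne_coeff _ _ 1; simp [one_coeff]
  simp only [sL_val, hT]
  simp only [add_mul, map_add, aug_single_mul, Finsupp.add_apply]
  rw [Finsupp.single_eq_of_ne a1.symm, Finsupp.single_eq_of_ne a2.symm,
    Finsupp.single_eq_of_ne a3.symm, Finsupp.single_eq_of_ne a4.symm,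
    Finsupp.single_eq_of_ne b1.symm, Finsupp.single_eq_of_ne b2.symm,
    Finsupp.single_eq_of_ne b3.symm, Finsupp.single_eq_of_ne b4.symm,
    Finsupp.single_eq_of_ne c1.symm, Finsupp.single_eq_of_ne c2.symm,
    Finsupp.single_eq_of_ne c3.symm, Finsupp.single_eq_of_ne c4.symm,
    Finsupp.single_eq_of_ne d1.symm, Finsupp.single_eq_of_ne d2.symm,
    Finsupp.single_eq_of_ne d3.symm, Finsupp.single_eq_same]
  decide

/-- the set of labels -/
def YL : Set SL := {y | ∃ k : ℤ, 1 ≤ k ∧ y = T (-k) * v0}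

lemma hYL (j : ℤ) (c : SL)
    (h : (c + ((sL ^ j : SLˣ) : SL) * c + ((sL ^ (3 * j) : SLˣ) : SL) * c) ∈ YL) :
    ((sL ^ (-j) : SLˣ) : SL) * (c + ((sL ^ j : SLˣ) : SL) * c +
      ((sL ^ (3 * j) : SLˣ) : SL) * c) ∈ YL := by
  obtain ⟨k, hk, e⟩ := h
  rw [e]
  rw [sL_zpow, sL_zpow] at e
  have hj : 0 ≤ j := by
    by_contra hcon
    exact nt j k (by omega) c e
  refine ⟨k + j, by omega, ?_⟩
  rw [sL_zpow, ← mul_assoc, ← T_add]
  congr 2; ring

/-- the data -/
noncomputable def DL : Dat sL where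
  Θ := Classical.choose (exists_theta sL two_SL)
  T1 := (Classical.choose_spec (exists_theta sL two_SL)).1
  T2 := (Classical.choose_spec (exists_theta sL two_SL)).2
  Y := YL

/-- lifts -/
noncomputable def fL : Fin 8 → FA sL := fun i => FreeGroup.of (yL i)

lemma deg_fL6 : deg sL (fL 6) = 1 := by
  have : ev _ (fL 6) = yL 6 := ev_of _ _
  unfold deg
  rw [this]; simp [yL]

lemma c_fL : (⁅(ev _ (fL 4)).right, (ev _ (fL 5)).right⁆ : Aff SL sL).b = 1 - T 1 * 1 := by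
  have h4 : ev _ (fL 4) = yL 4 := ev_of _ _
  have h5 : ev _ (fL 5) = yL 5 := ev_of _ _
  have e4 : (yL 4).right = ⟨0, 1⟩ := by simp [yL]
  have e5 : (yL 5).right = ⟨1, 0⟩ := by simp [yL]
  rw [h4, h5, e4, e5, Aff.comm_trans]
  simp [sL_val]

lemma vlab_fL : vlab fL (1 - T 1 * 1) = v0 := by
  unfold vlab
  rw [deg_fL6, sL_zpow, sL_zpow, mul_one]
  exact v0_eq

lemma th_fL : DL.th (bW fL) (bW_mem two_SL fL) = Finsupp.single v0 1 := by
  rw [th_bW two_SL DL fL _ c_fL, vlab_fL, if_neg v0_ne]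
  congr 1
  have : labA sL ⟨rW fL, rW_mem two_SL fL⟩ = (rW yL).left.snd := by
    unfold labA
    rw [lab_apply]
    have e : ev _ (rW fL) = rW yL := by
      rw [map_rW]; simp [fL]
    simp only [e]
  rw [this, aug_yL]

open Classical in
lemma lmb_fL (w : FA sL) : DL.lmb (bW fL) (bW_mem two_SL fL) w =
    if T (deg sL w) * v0 ∈ YL then 1 else 0 := by
  unfold Dat.lmb
  rw [th_fL, scal_single, lamY_single, sL_zpow]
  rfl

end concrete

end Pool.Agent.Helper705.Hopf
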