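import Mathlib
import Pool.Agent.Helper705.Hopf.HWit

set_option autoImplicit false

open scoped commutatorElement

namespace Pool.Agent.Helper705.Hopf

open Pool.Agent.Helper705.SRF LaurentPolynomial

lemma deg_D {S : Type} [CommRing S] {s : Sˣ} (d : FA s) (hd : d ∈ DA s) : deg s d = 0 := by
  have h := DA_le s hd
  have h' : (ev (Aff.toPerm (S := S) (s := s)) d).right = 1 := h.1
  unfold deg
  rw [h']; rfl

/-- the base point -/
noncomputable def w0 : FA sL := (fL 6)⁻¹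

open Classical in
/-- raw test function -/
noncomputable def lf (u : FA sL) : ZMod 3 := if h : u * fL 6 ∈ DA sL then
    sgn (lamY DL.Y (DL.th (u * fL 6) h)) else 0

lemma lf_pos (u : FA sL) (h : u * fL 6 ∈ DA sL) :
    lf u = sgn (lamY DL.Y (DL.th (u * fL 6) h)) := by
  unfold lf; rw [dif_pos h]

lemma lf_neg (u : FA sL) (h : ¬ (u * fL 6 ∈ DA sL)) : lf u = 0 := by
  unfold lf; rw [dif_neg h]

/-- a test function -/
noncomputable def lfun : DL.Lm := ⟨lf, by
  intro d hd w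
  by_cases h : w * fL 6 ∈ DA sL
  · have h' : d * w * fL 6 ∈ DA sL := by rw [mul_assoc]; exact mul_mem hd h
    rw [lf_pos _ h, lf_pos _ h', ← sgn_add, ← map_add, ← Dat.th_mul]
    congr 3
    exact mul_assoc _ _ _
  · have h' : ¬ (d * w * fL 6 ∈ DA sL) := by
      intro h'
      apply h
      have := mul_mem (inv_mem hd) h'
      rwa [mul_assoc d, inv_mul_cancel_left] at this
    rw [lf_neg _ h, lf_neg _ h', mul_zero]⟩

lemma lfun_w0 : lfun.1 w0 = 1 := by
  have h : w0 * fL 6 ∈ DA sL := by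
    unfold w0; rw [inv_mul_cancel]; exact one_mem _
  change lf w0 = 1
  rw [lf_pos _ h]
  have h1 : DL.th (w0 * fL 6) h = 0 := by
    have : (⟨w0 * fL 6, h⟩ : DA sL) = 1 := by apply Subtype.ext; simp [w0]
    unfold Dat.th
    rw [this, map_one]; rfl
  rw [h1, map_zero]; rfl

lemma lfun_w1 : lfun.1 (w0 * fL 6) = 0 := by
  have h : ¬ (w0 * fL 6 * fL 6 ∈ DA sL) := by
    intro h
    have h1 := deg_D _ h
    unfold w0 at h1
    rw [inv_mul_cancel, one_mul, deg_fL6] at h1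
    exact one_ne_zero h1
  exact lf_neg _ h

/-- the test tuple in the final group -/
noncomputable def aL : Fin 8 → DL.GG := fun i =>
  if i = 7 then DL.io (Multiplicative.ofAdd lfun)
  else SemidirectProduct.inr (QuotientGroup.mk (fL i))

lemma bW_aL : (bW aL).right = QuotientGroup.mk (bW fL) := by
  have e1 := map_bW (SemidirectProduct.rightHom : DL.GG →* DL.G1) aL
  have e2 := map_bW (QuotientGroup.mk' DL.W) fL
  have e3 : bW (fun i => (SemidirectProduct.rightHom : DL.GG →* DL.G1) (aL i)) =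
      bW (fun i => QuotientGroup.mk' DL.W (fL i)) := by
    simp [bW, rW, gW, aL]
  exact e1.trans (e3.trans e2.symm)

lemma deg_w0 : deg sL w0 = -1 := by unfold w0; rw [deg_inv, deg_fL6]

lemma lmb_w0 : DL.lmb (bW fL) (bW_mem two_SL fL) w0 = 1 := by
  classical
  rw [lmb_fL, if_pos]
  rw [deg_w0]
  exact ⟨1, le_refl _, rfl⟩

lemma lmb_w1 : DL.lmb (bW fL) (bW_mem two_SL fL) (w0 * fL 6) = 0 := by
  classical
  rw [lmb_fL, if_neg]
  rintro ⟨k, hk, e⟩
  have : deg sL (w0 * fL 6) = 0 := by rw [deg_mul, deg_w0, deg_fL6]; rfl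
  rw [this, T_zero, one_mul] at e
  exact v0_shift_ne k hk e.symm

/-- value of a module element -/
noncomputable def va (φ : Multiplicative DL.Lm) (w : FA sL) : ZMod 3 :=
  (Multiplicative.toAdd φ).1 w

lemma va_mul (φ ψ : Multiplicative DL.Lm) (w : FA sL) : va (φ * ψ) w = va φ w + va ψ w := rfl
lemma va_inv (φ : Multiplicative DL.Lm) (w : FA sL) : va φ⁻¹ w = - va φ w := rfl
lemma va_one (w : FA sL) : va 1 w = 0 := rfl

lemma va_EE (φ : Multiplicative DL.Lm) (w : FA sL) : va (EE DL.ka (bW aL) φ) w =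
    ind (DL.lmb (bW fL) (bW_mem two_SL fL) w) * va φ w :=
  Dat.EE_formula DL (bW aL) (bW fL) (bW_mem two_SL fL) bW_aL φ w

theorem nonlaw : wF (bW aL) (aL 6) (vF (bW aL) (aL 6) (aL 7)) ≠ aL 7 := by
  have h7 : aL 7 = DL.io (Multiplicative.ofAdd lfun) := by simp [aL]
  have h6 : (aL 6).right = QuotientGroup.mk (fL 6) := by simp [aL]
  have hm0 : mF (bW aL) (aL 6) 1 = DL.io 1 := by
    simp [mF]
  have hm1 := mF_shift DL.io DL.ka DL.ka_conj DL.ka_io (bW aL) (aL 6) 1 1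
    (Multiplicative.ofAdd lfun) hm0
  rw [mul_one, one_mul, one_mul, inv_one, mul_one, ← h7] at hm1
  set m := (EE DL.ka (bW aL) (Multiplicative.ofAdd lfun *
    (DL.ka (aL 6) (Multiplicative.ofAdd lfun))⁻¹))⁻¹ with hm
  refine wv_ne DL.io DL.ka DL.ka_conj DL.ka_io (bW aL) (aL 6) (aL 7) m hm1 ?_ DL.io_inj
  have ht : (aL 7 * aL 6 * (aL 7)⁻¹).right = QuotientGroup.mk (fL 6) := by
    rw [SemidirectProduct.mul_right, SemidirectProduct.mul_right, SemidirectProduct.inv_right,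
      h7, h6]
    simp [Dat.io]
  have ht' : ((aL 7 * aL 6 * (aL 7)⁻¹)⁻¹).right = QuotientGroup.mk (fL 6)⁻¹ := by
    rw [SemidirectProduct.inv_right, ht]; rfl
  have k1 : ∀ φ w, va (DL.ka (aL 7 * aL 6 * (aL 7)⁻¹) φ) w = va φ (w * fL 6) := fun φ w =>
    Dat.ka_mk DL _ _ ht φ w
  have k2 : ∀ φ w, va (DL.ka (aL 7 * aL 6 * (aL 7)⁻¹)⁻¹ φ) w = va φ (w * (fL 6)⁻¹) := fun φ w =>
    Dat.ka_mk DL _ _ ht' φ w
  have k3 : ∀ φ w, va (DL.ka (aL 6) φ) w = va φ (w * fL 6) := fun φ w =>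
    Dat.ka_mk DL _ _ h6 φ w
  have i0 : ind (DL.lmb (bW fL) (bW_mem two_SL fL) w0) = 1 := by rw [lmb_w0]; rfl
  have i1 : ind (DL.lmb (bW fL) (bW_mem two_SL fL) (w0 * fL 6)) = 0 := by rw [lmb_w1]; rfl
  have hm_w0 : va m w0 = -1 := by
    rw [hm, va_inv, va_EE, va_mul, va_inv, k3, i0]
    change -(1 * (lfun.1 w0 + -lfun.1 (w0 * fL 6))) = -1
    rw [lfun_w0, lfun_w1]; ring
  have hm_w1 : va m (w0 * fL 6) = 0 := by
    rw [hm, va_inv, va_EE, i1]; ring
  intro h
  have h' := congrArg (fun φ => va φ w0) h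
  simp only [va_mul, va_inv, va_EE, k1, k2, i0, i1, hm_w0, hm_w1, mul_inv_cancel_right] at h'
  revert h'
  generalize ind (DL.lmb (bW fL) (bW_mem two_SL fL) (w0 * (fL 6)⁻¹)) = A
  generalize va m (w0 * (fL 6)⁻¹) = B
  revert A B
  decide

end Pool.Agent.Helper705.Hopf
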